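import Pool.Agent.Helper48.Keep.CCM8
import Pool.Agent.Helper48.Keep.MTC3
import Pool.Agent.Helper48.Keep.CyclicCoverMotives
import Pool.Agent.Helper48.Keep.MumfordTateCovers

/-!
# The new lists contain the old ones
-/

set_option autoImplicit false

namespace Pool.Agent.Helper48.V11.Superset

open IntermediateField MvPolynomial CategoryTheory Pool.Agent.Helper15.GD

/-- the plane is the weighted plane with the weights `1, 1, 1` -/
theorem isCurve_of {Ω R M : Type} [Field Ω] [Field R] [Field M] [Algebra Ω M] [Algebra R M]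
    (h : Pool.Agent.Helper48.Keep.CCM8.IsCurve Ω R M) : Results.MP_b8862a_ag.CyclicCoverMotives.IsCurve Ω R M := by
  obtain ⟨n, r, d, e, f, x, y, w, h1, h2, h3, h4, h5, h6, h7⟩ := h
  refine ⟨n, 1, 1, r, d, e, f, x, y, w, h1, h2, h3, fun i m hm => ?_, h5, ?_, h7⟩
  · have h8 := (le_totalDegree hm).trans (h4 i)
    rw [Finsupp.sum_fintype _ _ (fun _ => rfl), Fin.sum_univ_two] at h8
    rwa [one_mul, one_mul]
  · rcases h6 with ⟨h6, h8⟩ | ⟨h6, h8⟩
    · refine Or.inl ⟨Or.inr ⟨rfl, rfl, h6⟩, fun k hk h9 => ?_⟩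
      have h10 := h8 k hk h9
      rwa [mul_comm 2 n] at h10
    · exact Or.inr ⟨rfl, rfl, h6, h8⟩

/-- CyclicCoverMotives v8 is contained in v9. -/
theorem ccm {Ω L G : Type} [Field Ω] [Field L] [Group G] (T : MotivicCoh Ω L G) (γ : G)
    (K : Ext Ω) (R : IntermediateField Ω K) (hR : Pool.Agent.Helper48.Keep.CCM8.IsAbelian R)
    (hM : ∀ M : IntermediateField R K, Pool.Agent.Helper48.Keep.CCM8.IsGood T γ R M) :
    Results.MP_b8862a_ag.CyclicCoverMotives.IsCover T γ K := by
  obtain ⟨h1, h2, h3⟩ := hR
  refine ⟨R, h1, h2, h3, fun M hc => ?_⟩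
  rcases hM M hc with h | h | h
  · exact Or.inl h
  · exact Or.inr (Or.inl h)
  · exact Or.inr (Or.inr (isCurve_of h))

/-- MumfordTateCovers v3 is contained in v4. -/
theorem mtc {Ω : Type} [Field Ω] [IsAlgClosed Ω] (K : Ext Ω) (R : IntermediateField Ω K)
    (hR : Pool.Agent.Helper48.Keep.MTC3.IsCover R) : Results.MP_b8862a_ag.MumfordTateCovers.IsCover Ω K := by
  obtain ⟨h1, h2, h3, hM⟩ := hR
  refine ⟨R, h1, h2, h3, fun M hc => ?_⟩
  have hG : IsGalois R M := (Pool.Agent.Helper75.WC.exists_restrict h3 M).1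
  obtain ⟨x, y, w, htop, ⟨hRM, r, d, e, f, h4, h5, h6, h7, h8⟩ |
    ⟨n, hRM, hn, a, b, c, F, h⟩⟩ := hM M hc
  · refine Or.inr (Or.inr ⟨Module.finrank (adjoin Ω {x, y}) M, 1, 1, r, d, e, f, x, y, w, hRM,
      htop, rfl, fun i m hm => ?_, h6, ?_, h8⟩)
    · have h8 := (le_totalDegree hm).trans (h4 i)
      rw [Finsupp.sum_fintype _ _ (fun _ => rfl), Fin.sum_univ_two] at h8
      rwa [one_mul, one_mul]
    · set n := Module.finrank (adjoin Ω {x, y}) M
      have hnat : n ≤ 10 → ((0 < 1 + 1 ∧ n ≤ 6 ∨ 1 = 1 ∧ 1 = 1 ∧ n ≤ 10) ∧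
          (∀ k < n, 2 * k ≠ n ∨ n = 2 → ∑ i, d i * (k * e i % n) ≤ n * (1 + 1) ∨
            ∑ i, d i * ((n - k) * e i % n) ≤ n * (1 + 1))) := by
        intro hn
        refine ⟨Or.inr ⟨rfl, rfl, hn⟩, fun k hk _ => ?_⟩
        have hdv : ∀ j : ℕ, n ∣ ∑ i, d i * (j * e i % n) := by
          intro j
          have h9 : (∑ i, d i * (j * e i % n)) % n = (j * ∑ i, d i * e i) % n := by
            rw [Finset.mul_sum, Finset.sum_nat_mod, Finset.sum_nat_mod _ _ (fun i => j * _)]
            congr 1
            refine Finset.sum_congr rfl fun i _ => ?_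
            rw [Nat.mul_mod, Nat.mod_mod, ← Nat.mul_mod]
            congr 1
            ring
          refine Nat.dvd_of_mod_eq_zero ?_
          rw [h9]
          exact Nat.mod_eq_zero_of_dvd (h6.mul_left j)
        have hsum : ∑ i, d i * (k * e i % n) + ∑ i, d i * ((n - k) * e i % n) ≤ 5 * n := by
          rw [← Finset.sum_add_distrib]
          calc ∑ i, (d i * (k * e i % n) + d i * ((n - k) * e i % n))
              ≤ ∑ i, d i * n := by
                refine Finset.sum_le_sum fun i _ => ?_
                rw [← mul_add]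
                refine Nat.mul_le_mul_left _ ?_
                have hn0 : 0 < n := by omega
                have h10 : (k * e i + (n - k) * e i) % n = 0 := by
                  rw [← add_mul, Nat.add_sub_cancel' hk.le, Nat.mul_mod_right]
                have h11 := Nat.add_mod (k * e i) ((n - k) * e i) n
                rw [h10] at h11
                have h12 := Nat.mod_lt (k * e i) hn0
                have h13 := Nat.mod_lt ((n - k) * e i) hn0
                obtain ⟨q, hq⟩ := Nat.dvd_of_mod_eq_zero h11.symm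
                have hq2 : q < 2 := by
                  by_contra hcon
                  push Not at hcon
                  have := Nat.mul_le_mul_left n hcon
                  omega
                interval_cases q <;> omega
            _ = (∑ i, d i) * n := by rw [Finset.sum_mul]
            _ ≤ 5 * n := Nat.mul_le_mul_right _ h5
        obtain ⟨p, hp⟩ := hdv k
        obtain ⟨q, hq⟩ := hdv (n - k)
        rw [hp, hq] at hsum
        rw [hp, hq]
        have hn0 : 0 < n := by omega
        have h14 : p + q ≤ 5 := by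
          by_contra hcon
          push Not at hcon
          have := Nat.mul_le_mul_left n hcon
          nlinarith
        rcases (show p ≤ 2 ∨ q ≤ 2 by omega) with h | h
        · exact Or.inl (Nat.mul_le_mul_left _ h)
        · exact Or.inr (Nat.mul_le_mul_left _ h)
      rcases h7 with h7 | h7 | ⟨h7, h9⟩
      · exact Or.inl (hnat (by omega))
      · exact Or.inl (hnat (by omega))
      · refine Or.inr ⟨rfl, rfl, h7, ?_⟩
        rcases h9 with h9 | h9
        · exact Or.inl h9
        · rcases (show ∑ i, d i ≤ 4 ∨ ∑ i, d i = 5 by omega) with h10 | h10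
          · exact Or.inl h10
          · exact Or.inr ⟨h10, h9⟩
  · have h4 : Pool.Agent.Helper73.V7.IsPullback Ω R M :=
      ⟨n, a, b, c, F, x, y, w, hRM, htop, hn, h⟩
    exact h4.row.imp Ext.uniruled_of fun h => Or.inl (Results.MP_b8862a_ag.MumfordTateCovers.isTwist_of h)

end Pool.Agent.Helper48.V11.Superset
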